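import Pool.Agent.H74.Kak.Main

/-!
Integration over the directions, and the dyadic sum.
-/

open MeasureTheory Metric Set
open scoped ENNReal NNReal Pointwise

namespace Pool.Agent.H74.Kak

/-- the constants of the dyadic sum -/
noncomputable def cj (k : ℕ) (δ ρ : ℝ) (j : ℕ) : ℝ :=
  (2 ^ (j + 2) * ρ) ^ k * (2 * (k + 1 + 1) * (4 * δ / (2 ^ j * ρ)) ^ (k + 1))

instance (n : ℕ) : IsFiniteMeasure (surf n) := ⟨surf_univ_lt_top n⟩

lemma ker_int_le {k : ℕ} {δ ρ : ℝ} (hδ : 0 < δ) (hρ0 : 0 < ρ) {J : ℕ}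
    (hJ : 2 ≤ 2 ^ J * ρ) (w : Rn (k + 1 + 1)) :
    ∫⁻ e : sphere (0 : Rn (k + 1 + 1)) 1, ker k δ ρ (e : Rn (k + 1 + 1)) w ∂(surf (k + 1 + 1)) ≤
      (closedBall (0 : Rn (k + 1 + 1)) ρ).indicator
        (fun _ => ENNReal.ofReal ((2 * ρ) ^ k) * surf (k + 1 + 1) univ) w +
      ∑ j ∈ Finset.range J, (closedBall (0 : Rn (k + 1 + 1)) (2 ^ (j + 1) * ρ)).indicator
        (fun _ => ENNReal.ofReal (cj k δ ρ j)) w := by
  rcases lt_or_ge 2 ‖w‖ with h2 | h2
  · have : ∀ e : sphere (0 : Rn (k + 1 + 1)) 1, ker k δ ρ (e : Rn (k + 1 + 1)) w = 0 := by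
      intro e
      rw [ker, indicator_of_notMem]
      rintro ⟨h, _⟩
      linarith
    simp [this]
  have h0 : ∫⁻ e : sphere (0 : Rn (k + 1 + 1)) 1, ker k δ ρ (e : Rn (k + 1 + 1)) w
      ∂(surf (k + 1 + 1)) ≤
      ENNReal.ofReal ((ρ + ‖w‖) ^ k) * surf (k + 1 + 1) (caps δ w) := by
    rw [← lintegral_indicator_const (measurableSet_caps δ w)]
    refine lintegral_mono fun e => ?_
    by_cases he : e ∈ caps δ w
    · rw [indicator_of_mem he, ker]
      exact indicator_le_self' (by simp) w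
    · rw [ker, indicator_of_notMem]
      · exact zero_le
      · rintro ⟨_, h⟩
        exact he h
  refine h0.trans ?_
  rcases le_or_gt ‖w‖ ρ with h1 | h1
  · refine le_trans ?_ (le_self_add)
    rw [indicator_of_mem (by simpa using h1)]
    gcongr
    · linarith
    · exact subset_univ _
  · refine le_trans ?_ (le_add_self)
    have hw : w ≠ 0 := by
      rintro rfl
      rw [norm_zero] at h1
      linarith
    have hex : ∃ j, ‖w‖ ≤ 2 ^ (j + 1) * ρ := by
      refine ⟨J, ?_⟩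
      rw [pow_succ]
      nlinarith [show (0:ℝ) < 2 ^ J by positivity]
    classical
    set j := Nat.find hex with hj
    have hj1 : ‖w‖ ≤ 2 ^ (j + 1) * ρ := Nat.find_spec hex
    have hj2 : 2 ^ j * ρ < ‖w‖ := by
      rcases Nat.eq_zero_or_pos j with h | h
      · rw [h]
        simpa using h1
      · have := Nat.find_min hex (m := j - 1) (by omega)
        rw [not_le, Nat.sub_add_cancel h] at this
        exact this
    have hjJ : j < J := by
      by_contra hcon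
      rw [not_lt] at hcon
      have : (2 : ℝ) ^ J * ρ ≤ 2 ^ j * ρ := by
        have : (2 : ℝ) ^ J ≤ 2 ^ j := pow_le_pow_right₀ (by norm_num) hcon
        gcongr
      linarith
    refine le_trans ?_ (Finset.single_le_sum (f := fun j =>
      (closedBall (0 : Rn (k + 1 + 1)) (2 ^ (j + 1) * ρ)).indicator
        (fun _ => ENNReal.ofReal (cj k δ ρ j)) w) (fun _ _ => zero_le)
        (Finset.mem_range.2 hjJ))
    beta_reduce
    rw [indicator_of_mem (by simpa using hj1), cj, ENNReal.ofReal_mul (by positivity)]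
    have hcap := surf_caps_le (m := k + 1) hδ.le hw
    refine mul_le_mul' ?_ (hcap.trans ?_)
    · apply ENNReal.ofReal_le_ofReal
      have h3 : ρ + ‖w‖ ≤ 2 ^ (j + 2) * ρ := by
        have : ρ ≤ 2 ^ (j + 1) * ρ := by
          have : (1 : ℝ) ≤ 2 ^ (j + 1) := one_le_pow₀ (by norm_num)
          nlinarith
        calc ρ + ‖w‖ ≤ 2 ^ (j + 1) * ρ + 2 ^ (j + 1) * ρ := by linarith
          _ = 2 ^ (j + 2) * ρ := by ring
      gcongr
    · apply ENNReal.ofReal_le_ofReal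
      push_cast
      gcongr

attribute [local irreducible] ker

lemma measurable_ker' {β : Type*} [MeasurableSpace β] {n : ℕ} (k : ℕ) (δ ρ : ℝ)
    {u v : β → Rn n} (hu : Measurable u) (hv : Measurable v) :
    Measurable fun x => ker k δ ρ (u x) (v x) :=
  (measurable_ker k δ ρ).comp (hu.prodMk hv)

/-- Integration over the directions. -/
lemma swap_dir {k : ℕ} {δ ρ : ℝ} {E : Set (Rn (k + 1 + 1))}
    {g : Rn (k + 1 + 1) → ℝ≥0∞} (hg : Measurable g) :
    ∫⁻ e : sphere (0 : Rn (k + 1 + 1)) 1, (∫⁻ y, g y ^ (k + 2) *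
        ∫⁻ z in E, ker k δ ρ (e : Rn (k + 1 + 1)) (z - y)) ∂(surf (k + 1 + 1)) =
      ∫⁻ y, g y ^ (k + 2) * ∫⁻ z in E, ∫⁻ e : sphere (0 : Rn (k + 1 + 1)) 1,
        ker k δ ρ (e : Rn (k + 1 + 1)) (z - y) ∂(surf (k + 1 + 1)) := by
  have hu : Measurable fun p : (sphere (0 : Rn (k + 1 + 1)) 1 × Rn (k + 1 + 1)) ×
      Rn (k + 1 + 1) => (p.1.1 : Rn (k + 1 + 1)) :=
    measurable_subtype_coe.comp (measurable_fst.comp measurable_fst)
  have hv : Measurable fun p : (sphere (0 : Rn (k + 1 + 1)) 1 × Rn (k + 1 + 1)) ×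
      Rn (k + 1 + 1) => p.2 - p.1.2 :=
    measurable_snd.sub (measurable_snd.comp measurable_fst)
  have hK := measurable_ker' k δ ρ hu hv
  have hK2 : Measurable fun p : sphere (0 : Rn (k + 1 + 1)) 1 × Rn (k + 1 + 1) =>
      ∫⁻ z in E, ker k δ ρ (p.1 : Rn (k + 1 + 1)) (z - p.2) := hK.lintegral_prod_right'
  have hF : Measurable (Function.uncurry fun (e : sphere (0 : Rn (k + 1 + 1)) 1)
      (y : Rn (k + 1 + 1)) => g y ^ (k + 2) *
        ∫⁻ z in E, ker k δ ρ (e : Rn (k + 1 + 1)) (z - y)) :=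
    Measurable.mul ((hg.comp measurable_snd).pow_const _) hK2
  rw [lintegral_lintegral_swap hF.aemeasurable]
  refine lintegral_congr fun y => ?_
  have h1 : Measurable fun e : sphere (0 : Rn (k + 1 + 1)) 1 =>
      ∫⁻ z in E, ker k δ ρ (e : Rn (k + 1 + 1)) (z - y) :=
    hK2.comp (measurable_id.prodMk measurable_const)
  rw [lintegral_const_mul _ h1]
  have hu2 : Measurable fun p : sphere (0 : Rn (k + 1 + 1)) 1 × Rn (k + 1 + 1) =>
      (p.1 : Rn (k + 1 + 1)) := measurable_subtype_coe.comp measurable_fst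
  have hv2 : Measurable fun p : sphere (0 : Rn (k + 1 + 1)) 1 × Rn (k + 1 + 1) =>
      p.2 - y := measurable_snd.sub measurable_const
  have h2 : Measurable (Function.uncurry fun (e : sphere (0 : Rn (k + 1 + 1)) 1)
      (z : Rn (k + 1 + 1)) => ker k δ ρ (e : Rn (k + 1 + 1)) (z - y)) :=
    measurable_ker' k δ ρ hu2 hv2
  rw [lintegral_lintegral_swap h2.aemeasurable]

/-- The Kakeya maximal function. -/
noncomputable def kakeyaMax {n : ℕ} (δ : ℝ) (f : Rn n → ℝ) (e : Rn n) : ℝ≥0∞ :=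
  ⨆ a : Rn n, (volume (tube δ e a))⁻¹ * ∫⁻ y in tube δ e a, ‖f y‖ₑ

/-- The estimate, before the evaluation of the constants. -/
lemma pre_bound {k : ℕ} {δ ρ A α : ℝ} (hδ : 0 < δ) (hρ : 2 * δ ≤ ρ) (hρ1 : ρ ≤ 1) (hA : 0 ≤ A)
    {E : Set (Rn (k + 1 + 1))} (hEm : MeasurableSet E)
    (hE : ∀ (x : Rn (k + 1 + 1)) (r : ℝ), ρ ≤ r → r ≤ 4 →
      volume (E ∩ closedBall x r) ≤ ENNReal.ofReal (A * δ ^ (k + 2) * (r / ρ) ^ α))
    {f : Rn (k + 1 + 1) → ℝ} (hf : AEMeasurable f volume) (hfE : ∀ x, x ∉ E → f x = 0)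
    {J : ℕ} (hJ : 2 ≤ 2 ^ J * ρ) (hJ2 : ∀ j < J, 2 ^ j * ρ ≤ 2) :
    ∫⁻ e : sphere (0 : Rn (k + 1 + 1)) 1, kakeyaMax δ f (e : Rn (k + 1 + 1)) ^ (k + 2)
        ∂(surf (k + 1 + 1)) ≤
      ENNReal.ofReal (((2 * (δ / (k + 1 + 1))) ^ (k + 1))⁻¹ ^ (k + 2) *
          (2 * (4 * (A * δ ^ (k + 2)) / ρ) ^ k) *
        ((2 * ρ) ^ k * (surf (k + 1 + 1) univ).toReal * (A * δ ^ (k + 2)) +
          ∑ j ∈ Finset.range J, cj k δ ρ j * (A * δ ^ (k + 2) * (2 ^ (j + 1)) ^ α))) *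
        ∫⁻ x, ‖f x‖ₑ ^ (k + 2) := by
  have hρ0 : 0 < ρ := by linarith
  set V : ℝ := A * δ ^ (k + 2) with hVdef
  have hV : 0 ≤ V := by positivity
  have hEρ : ∀ x, volume (E ∩ closedBall x ρ) ≤ ENNReal.ofReal V := by
    intro x
    have := hE x ρ le_rfl (by linarith)
    rwa [div_self hρ0.ne', Real.one_rpow, mul_one] at this
  set g : Rn (k + 1 + 1) → ℝ≥0∞ := E.indicator (fun x => ‖hf.mk f x‖ₑ) with hg
  have hgm : Measurable g := (hf.measurable_mk.enorm).indicator hEm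
  have hgE : ∀ x, x ∉ E → g x = 0 := fun x hx => indicator_of_notMem hx _
  have hgf : (fun x => ‖f x‖ₑ) =ᵐ[volume] g := by
    filter_upwards [hf.ae_eq_mk] with x hx
    by_cases hxE : x ∈ E
    · rw [hg, indicator_of_mem hxE, hx]
    · rw [hg, indicator_of_notMem hxE, hfE x hxE]
      simp
  set Q : ℝ := ((2 * (δ / (k + 1 + 1))) ^ (k + 1))⁻¹ ^ (k + 2) * (2 * (4 * V / ρ) ^ k) with hQ
  have hQ0 : 0 ≤ Q := by positivity
  have hmax : ∀ e : sphere (0 : Rn (k + 1 + 1)) 1,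
      kakeyaMax δ f (e : Rn (k + 1 + 1)) ^ (k + 2) ≤ ENNReal.ofReal Q *
        ∫⁻ y, g y ^ (k + 2) * ∫⁻ z in E, ker k δ ρ (e : Rn (k + 1 + 1)) (z - y) := by
    intro e
    have he : ‖(e : Rn (k + 1 + 1))‖ = 1 := by simp
    have hpos : (0 : ℝ) < ((k + 2 : ℕ) : ℝ) := by positivity
    have h1 : kakeyaMax δ f (e : Rn (k + 1 + 1)) ≤ (ENNReal.ofReal Q *
        ∫⁻ y, g y ^ (k + 2) * ∫⁻ z in E, ker k δ ρ (e : Rn (k + 1 + 1)) (z - y)) ^
          (((k + 2 : ℕ) : ℝ)⁻¹) := by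
      refine iSup_le fun a => ?_
      rw [ENNReal.le_rpow_inv_iff hpos, ENNReal.rpow_natCast]
      have h2 := one_tube a he hδ hρ hρ1 hV hEm hEρ hgm hgE
      have h3 : ∫⁻ y in tube δ (e : Rn (k + 1 + 1)) a, ‖f y‖ₑ =
          ∫⁻ y in tube δ (e : Rn (k + 1 + 1)) a, g y :=
        lintegral_congr_ae (ae_restrict_of_ae hgf)
      rw [h3]
      exact h2
    calc kakeyaMax δ f (e : Rn (k + 1 + 1)) ^ (k + 2)
        ≤ ((ENNReal.ofReal Q *
        ∫⁻ y, g y ^ (k + 2) * ∫⁻ z in E, ker k δ ρ (e : Rn (k + 1 + 1)) (z - y)) ^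
          (((k + 2 : ℕ) : ℝ)⁻¹)) ^ (k + 2) := by gcongr
      _ = _ := by
        rw [← ENNReal.rpow_natCast, ← ENNReal.rpow_mul, inv_mul_cancel₀ hpos.ne',
          ENNReal.rpow_one]
  have hS : surf (k + 1 + 1) univ = ENNReal.ofReal (surf (k + 1 + 1) univ).toReal :=
    (ENNReal.ofReal_toReal (surf_univ_lt_top _).ne).symm
  have hcj : ∀ j, 0 ≤ cj k δ ρ j := fun j => by unfold cj; positivity
  have hinner : ∀ y, ∫⁻ z in E, ∫⁻ e : sphere (0 : Rn (k + 1 + 1)) 1,
        ker k δ ρ (e : Rn (k + 1 + 1)) (z - y) ∂(surf (k + 1 + 1)) ≤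
      ENNReal.ofReal ((2 * ρ) ^ k * (surf (k + 1 + 1) univ).toReal * V +
          ∑ j ∈ Finset.range J, cj k δ ρ j * (V * (2 ^ (j + 1)) ^ α)) := by
    intro y
    have hind : ∀ (r : ℝ) (c : ℝ≥0∞), ∫⁻ z in E, (closedBall (0 : Rn (k + 1 + 1)) r).indicator
        (fun _ => c) (z - y) = c * volume (E ∩ closedBall y r) := by
      intro r c
      have : ∀ z, (closedBall (0 : Rn (k + 1 + 1)) r).indicator (fun _ => c) (z - y) =
          (closedBall y r).indicator (fun _ => c) z := by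
        intro z
        simp only [indicator, mem_closedBall, dist_eq_norm, sub_zero]
      simp only [this]
      rw [lintegral_indicator_const measurableSet_closedBall,
        Measure.restrict_apply measurableSet_closedBall, inter_comm]
    have hmeas : ∀ (r : ℝ) (c : ℝ≥0∞), Measurable fun z : Rn (k + 1 + 1) =>
        (closedBall (0 : Rn (k + 1 + 1)) r).indicator (fun _ => c) (z - y) := by
      intro r c
      exact (measurable_const.indicator measurableSet_closedBall).comp (by fun_prop)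
    calc ∫⁻ z in E, ∫⁻ e : sphere (0 : Rn (k + 1 + 1)) 1,
        ker k δ ρ (e : Rn (k + 1 + 1)) (z - y) ∂(surf (k + 1 + 1))
        ≤ ∫⁻ z in E, ((closedBall (0 : Rn (k + 1 + 1)) ρ).indicator
        (fun _ => ENNReal.ofReal ((2 * ρ) ^ k) * surf (k + 1 + 1) univ) (z - y) +
      ∑ j ∈ Finset.range J, (closedBall (0 : Rn (k + 1 + 1)) (2 ^ (j + 1) * ρ)).indicator
        (fun _ => ENNReal.ofReal (cj k δ ρ j)) (z - y)) :=
          lintegral_mono fun z => ker_int_le hδ hρ0 hJ (z - y)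
      _ = ENNReal.ofReal ((2 * ρ) ^ k) * surf (k + 1 + 1) univ * volume (E ∩ closedBall y ρ) +
          ∑ j ∈ Finset.range J, ENNReal.ofReal (cj k δ ρ j) *
            volume (E ∩ closedBall y (2 ^ (j + 1) * ρ)) := by
          rw [lintegral_add_left (hmeas _ _), lintegral_finsetSum _ (fun j _ => hmeas _ _), hind]
          congr 1
          exact Finset.sum_congr rfl fun j _ => hind _ _
      _ ≤ ENNReal.ofReal ((2 * ρ) ^ k) * surf (k + 1 + 1) univ * ENNReal.ofReal V +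
          ∑ j ∈ Finset.range J, ENNReal.ofReal (cj k δ ρ j) *
            ENNReal.ofReal (V * (2 ^ (j + 1)) ^ α) := by
          refine add_le_add (by gcongr; exact hEρ y) (Finset.sum_le_sum fun j hj => ?_)
          have hj1 := hJ2 j (Finset.mem_range.1 hj)
          have h1 : (1 : ℝ) ≤ 2 ^ (j + 1) := one_le_pow₀ (by norm_num)
          have h2 := hE y (2 ^ (j + 1) * ρ) (by nlinarith) (by rw [pow_succ]; linarith)
          rw [mul_div_assoc, div_self hρ0.ne', mul_one] at h2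
          gcongr
      _ = _ := by
          have hsum : ∑ j ∈ Finset.range J, ENNReal.ofReal (cj k δ ρ j) *
              ENNReal.ofReal (V * (2 ^ (j + 1)) ^ α) =
              ENNReal.ofReal (∑ j ∈ Finset.range J, cj k δ ρ j * (V * (2 ^ (j + 1)) ^ α)) := by
            rw [ENNReal.ofReal_sum_of_nonneg fun j _ => mul_nonneg (hcj j) (by positivity)]
            exact Finset.sum_congr rfl fun j _ => (ENNReal.ofReal_mul (hcj j)).symm
          rw [hsum, hS, ENNReal.toReal_ofReal ENNReal.toReal_nonneg,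
            ← ENNReal.ofReal_mul (by positivity), ← ENNReal.ofReal_mul (by positivity),
            ENNReal.ofReal_add (by positivity)
              (Finset.sum_nonneg fun j _ => mul_nonneg (hcj j) (by positivity))]
  calc ∫⁻ e : sphere (0 : Rn (k + 1 + 1)) 1, kakeyaMax δ f (e : Rn (k + 1 + 1)) ^ (k + 2)
        ∂(surf (k + 1 + 1))
      ≤ ∫⁻ e : sphere (0 : Rn (k + 1 + 1)) 1, ENNReal.ofReal Q *
        (∫⁻ y, g y ^ (k + 2) * ∫⁻ z in E, ker k δ ρ (e : Rn (k + 1 + 1)) (z - y))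
          ∂(surf (k + 1 + 1)) := lintegral_mono hmax
    _ = ENNReal.ofReal Q * ∫⁻ y, g y ^ (k + 2) * ∫⁻ z in E,
        ∫⁻ e : sphere (0 : Rn (k + 1 + 1)) 1,
        ker k δ ρ (e : Rn (k + 1 + 1)) (z - y) ∂(surf (k + 1 + 1)) := by
        rw [lintegral_const_mul' _ _ ENNReal.ofReal_ne_top, swap_dir hgm]
    _ ≤ ENNReal.ofReal Q * ∫⁻ y, g y ^ (k + 2) *
        ENNReal.ofReal ((2 * ρ) ^ k * (surf (k + 1 + 1) univ).toReal * V +
          ∑ j ∈ Finset.range J, cj k δ ρ j * (V * (2 ^ (j + 1)) ^ α)) := by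
        gcongr with y
        exact hinner y
    _ = _ := by
        rw [lintegral_mul_const _ (hgm.pow_const _)]
        have h1 : ∫⁻ y, g y ^ (k + 2) = ∫⁻ y, ‖f y‖ₑ ^ (k + 2) := by
          refine lintegral_congr_ae ?_
          filter_upwards [hgf] with y hy
          rw [← hy]
        rw [h1, ENNReal.ofReal_mul hQ0]
        ring

end Pool.Agent.H74.Kak
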