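import Mathlib

/-!
Volumes of cylinders and measures of double caps of directions.
-/

open MeasureTheory Metric Set
open scoped ENNReal NNReal Pointwise

namespace Pool.Agent.H74.Kak

/-- Euclidean space. -/
abbrev Rn (n : ℕ) := EuclideanSpace ℝ (Fin n)

/-- A solid cylinder centred at the origin with axis direction `e`. -/
def cyl {n : ℕ} (h s : ℝ) (e : Rn n) : Set (Rn n) :=
  {y | |inner ℝ y e| ≤ h ∧ ‖y - (inner ℝ y e : ℝ) • e‖ ≤ s}

lemma vol_box {n : ℕ} (c : Fin n → ℝ) :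
    volume {x : Rn n | ∀ i, |x i| ≤ c i} = ∏ i, ENNReal.ofReal (2 * c i) := by
  have h := (PiLp.volume_preserving_ofLp (Fin n)).measure_preimage
    (s := Icc (fun i => -c i) c) measurableSet_Icc.nullMeasurableSet
  have h2 : (WithLp.ofLp ⁻¹' (Icc (fun i => -c i) c) : Set (Rn n)) =
      {x : Rn n | ∀ i, |x i| ≤ c i} := by
    ext x
    simp only [mem_preimage, mem_Icc, Pi.le_def, mem_ofPred_eq, abs_le, forall_and]
  rw [← h2, h, Real.volume_Icc_pi]
  refine Finset.prod_congr rfl fun i _ => ?_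
  congr 1
  ring

/-- An orthonormal basis which begins with a given unit vector. -/
lemma exists_basis {m : ℕ} {e : Rn (m + 1)} (he : ‖e‖ = 1) :
    ∃ b : OrthonormalBasis (Fin (m + 1)) ℝ (Rn (m + 1)), b 0 = e := by
  have hv : Orthonormal ℝ (({0} : Set (Fin (m + 1))).domRestrict (fun _ => e)) := by
    constructor
    · intro i
      exact he
    · intro i j hij
      exact absurd (Subsingleton.elim i j) hij
  obtain ⟨b, hb⟩ := Orthonormal.exists_orthonormalBasis_extension_of_card_eq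
    (ι := Fin (m + 1)) (by simp) hv
  exact ⟨b, hb 0 rfl⟩

lemma perp_sq {m : ℕ} {e : Rn (m + 1)} (b : OrthonormalBasis (Fin (m + 1)) ℝ (Rn (m + 1)))
    (hb : b 0 = e) (y : Rn (m + 1)) :
    ‖y - (inner ℝ y e : ℝ) • e‖ ^ 2 = ∑ i : Fin m, (b.repr y i.succ) ^ 2 := by
  have h1 : ∀ i, b.repr (y - (inner ℝ y e : ℝ) • e) i =
      if i = 0 then 0 else b.repr y i := by
    intro i
    rw [b.repr_apply_apply, b.repr_apply_apply, inner_sub_right, inner_smul_right, ← hb]
    have h2 := orthonormal_iff_ite.1 b.orthonormal i 0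
    rw [h2]
    split_ifs with hi
    · subst hi
      rw [real_inner_comm]
      ring
    · ring
  rw [← b.repr.norm_map, EuclideanSpace.norm_sq_eq, Fin.sum_univ_succ]
  simp only [h1]
  simp [Fin.succ_ne_zero]

lemma coord_zero {m : ℕ} {e : Rn (m + 1)} (b : OrthonormalBasis (Fin (m + 1)) ℝ (Rn (m + 1)))
    (hb : b 0 = e) (y : Rn (m + 1)) : (inner ℝ y e : ℝ) = b.repr y 0 := by
  rw [b.repr_apply_apply, hb, real_inner_comm]

lemma vol_cyl_le {m : ℕ} {e : Rn (m + 1)} (he : ‖e‖ = 1) {h s : ℝ} (hs : 0 ≤ s) :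
    volume (cyl h s e) ≤ ENNReal.ofReal (2 * h) * ENNReal.ofReal (2 * s) ^ m := by
  obtain ⟨b, hb⟩ := exists_basis he
  have hsub : cyl h s e ⊆ b.measurableEquiv ⁻¹'
      {x : Rn (m + 1) | ∀ i, |x i| ≤ (Fin.cons h (fun _ => s) : Fin (m + 1) → ℝ) i} := by
    intro y hy i
    obtain ⟨h1, h2⟩ := hy
    refine Fin.cases ?_ (fun j => ?_) i
    · simp only [Fin.cons_zero]
      rw [coord_zero b hb] at h1
      exact h1
    · simp only [Fin.cons_succ]
      have h3 := perp_sq b hb y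
      have h4 : (b.repr y j.succ) ^ 2 ≤ s ^ 2 := by
        calc (b.repr y j.succ) ^ 2 ≤ ∑ i : Fin m, (b.repr y i.succ) ^ 2 :=
              Finset.single_le_sum (f := fun i : Fin m => (b.repr y i.succ) ^ 2)
                (fun i _ => sq_nonneg _) (Finset.mem_univ j)
          _ = ‖y - (inner ℝ y e : ℝ) • e‖ ^ 2 := h3.symm
          _ ≤ s ^ 2 := by gcongr
      exact abs_le_of_sq_le_sq h4 hs
  refine (measure_mono hsub).trans ?_
  have h5 : volume (b.measurableEquiv ⁻¹'
      {x : Rn (m + 1) | ∀ i, |x i| ≤ (Fin.cons h (fun _ => s) : Fin (m + 1) → ℝ) i}) =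
      volume {x : Rn (m + 1) | ∀ i, |x i| ≤ (Fin.cons h (fun _ => s) : Fin (m + 1) → ℝ) i} :=
    b.measurePreserving_measurableEquiv.measure_preimage_equiv _
  rw [h5, vol_box, Fin.prod_univ_succ]
  simp

lemma vol_cyl_ge {m : ℕ} {e : Rn (m + 1)} (he : ‖e‖ = 1) {h s : ℝ} (hs : 0 ≤ s) :
    ENNReal.ofReal (2 * h) * ENNReal.ofReal (2 * (s / (m + 1))) ^ m ≤ volume (cyl h s e) := by
  obtain ⟨b, hb⟩ := exists_basis he
  have hsub : b.measurableEquiv ⁻¹'
      {x : Rn (m + 1) | ∀ i, |x i| ≤ (Fin.cons h (fun _ => s / (m + 1)) : Fin (m + 1) → ℝ) i}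
      ⊆ cyl h s e := by
    intro y hy
    have hy' : ∀ i, |b.repr y i| ≤ (Fin.cons h (fun _ => s / (m + 1)) : Fin (m + 1) → ℝ) i := hy
    constructor
    · have := hy' 0
      rw [coord_zero b hb]
      simpa using this
    · have h3 := perp_sq b hb y
      have h4 : ‖y - (inner ℝ y e : ℝ) • e‖ ^ 2 ≤ s ^ 2 := by
        rw [h3]
        calc ∑ i : Fin m, (b.repr y i.succ) ^ 2 ≤ ∑ i : Fin m, (s / (m + 1)) ^ 2 := by
              refine Finset.sum_le_sum fun i _ => ?_
              have := hy' i.succ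
              simp only [Fin.cons_succ] at this
              exact sq_le_sq' (neg_le_of_abs_le this) (le_of_abs_le this)
          _ = m * (s / (m + 1)) ^ 2 := by simp
          _ ≤ s ^ 2 := by
              rw [div_pow]
              have hm : (0 : ℝ) < (m : ℝ) + 1 := by positivity
              rw [mul_div_assoc', div_le_iff₀ (by positivity)]
              have : (m : ℝ) ≤ (m + 1) ^ 2 := by nlinarith [Nat.cast_nonneg (α := ℝ) m]
              nlinarith [sq_nonneg s]
      exact (abs_le_of_sq_le_sq' h4 hs).2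
  refine le_trans ?_ (measure_mono hsub)
  have h5 : volume (b.measurableEquiv ⁻¹'
      {x : Rn (m + 1) | ∀ i, |x i| ≤ (Fin.cons h (fun _ => s / (m + 1)) : Fin (m + 1) → ℝ) i}) =
      volume {x : Rn (m + 1) |
        ∀ i, |x i| ≤ (Fin.cons h (fun _ => s / (m + 1)) : Fin (m + 1) → ℝ) i} :=
    b.measurePreserving_measurableEquiv.measure_preimage_equiv _
  rw [h5, vol_box, Fin.prod_univ_succ]
  simp

/-- The surface measure of the unit sphere. -/
noncomputable def surf (n : ℕ) : Measure (sphere (0 : Rn n) 1) :=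
  (volume : Measure (Rn n)).toSphere

/-- The directions of the tubes of radius `δ` which contain two points with difference `w`. -/
def caps {n : ℕ} (δ : ℝ) (w : Rn n) : Set (sphere (0 : Rn n) 1) :=
  {e | ‖w - (inner ℝ w (e : Rn n) : ℝ) • (e : Rn n)‖ ≤ 2 * δ}

lemma measurableSet_caps {n : ℕ} (δ : ℝ) (w : Rn n) : MeasurableSet (caps δ w) := by
  exact (isClosed_le (by fun_prop) continuous_const).measurableSet

/-- For unit vectors the distance of one to the line of the other is symmetric. -/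
lemma perp_symm {n : ℕ} {e u : Rn n} (he : ‖e‖ = 1) (hu : ‖u‖ = 1) :
    ‖e - (inner ℝ e u : ℝ) • u‖ ^ 2 = ‖u - (inner ℝ u e : ℝ) • e‖ ^ 2 := by
  rw [@norm_sub_sq_real, @norm_sub_sq_real, norm_smul, norm_smul, he, hu, inner_smul_right,
    inner_smul_right, real_inner_comm e u]

lemma surf_caps_le {m : ℕ} {δ : ℝ} (hδ : 0 ≤ δ) {w : Rn (m + 1)} (hw : w ≠ 0) :
    surf (m + 1) (caps δ w) ≤
      ENNReal.ofReal (2 * (m + 1) * (4 * δ / ‖w‖) ^ m) := by
  have hw0 : 0 < ‖w‖ := norm_pos_iff.2 hw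
  set u : Rn (m + 1) := (‖w‖)⁻¹ • w with hu
  have hu1 : ‖u‖ = 1 := by
    rw [hu, norm_smul, norm_inv, norm_norm, inv_mul_cancel₀ hw0.ne']
  have hwu : w = ‖w‖ • u := by rw [hu, smul_smul, mul_inv_cancel₀ hw0.ne', one_smul]
  rw [surf, Measure.toSphere_apply' _ (measurableSet_caps δ w)]
  have hsub : Ioo (0 : ℝ) 1 • ((↑) '' caps δ w : Set (Rn (m + 1))) ⊆
      cyl 1 (2 * δ / ‖w‖) u := by
    rintro x ⟨r, hr, y, ⟨e, he, rfl⟩, rfl⟩
    have he1 : ‖(e : Rn (m + 1))‖ = 1 := by simp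
    have he2 : ‖w - (inner ℝ w (e : Rn (m + 1)) : ℝ) • (e : Rn (m + 1))‖ ≤ 2 * δ := he
    constructor
    · have := abs_real_inner_le_norm (r • (e : Rn (m + 1))) u
      simp only [] at *
      rw [norm_smul, he1, hu1, Real.norm_eq_abs, abs_of_pos hr.1] at this
      linarith [hr.2]
    · have h1 : ‖(e : Rn (m + 1)) - (inner ℝ (e : Rn (m + 1)) u : ℝ) • u‖ =
          ‖u - (inner ℝ u (e : Rn (m + 1)) : ℝ) • (e : Rn (m + 1))‖ := by
        have := perp_symm he1 hu1
        exact (sq_eq_sq₀ (norm_nonneg _) (norm_nonneg _)).1 this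
      have h2 : ‖w‖ * ‖u - (inner ℝ u (e : Rn (m + 1)) : ℝ) • (e : Rn (m + 1))‖ ≤ 2 * δ := by
        have h3 : w - (inner ℝ w (e : Rn (m + 1)) : ℝ) • (e : Rn (m + 1)) =
            ‖w‖ • (u - (inner ℝ u (e : Rn (m + 1)) : ℝ) • (e : Rn (m + 1))) := by
          conv_lhs => rw [hwu]
          rw [real_inner_smul_left, smul_sub, mul_smul]
        rw [h3, norm_smul, norm_norm] at he2
        exact he2
      have h4 : r • (e : Rn (m + 1)) - (inner ℝ (r • (e : Rn (m + 1))) u : ℝ) • u =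
          r • ((e : Rn (m + 1)) - (inner ℝ (e : Rn (m + 1)) u : ℝ) • u) := by
        rw [real_inner_smul_left, smul_sub, mul_smul]
      show ‖r • (e : Rn (m + 1)) - (inner ℝ (r • (e : Rn (m + 1))) u : ℝ) • u‖ ≤ _
      rw [h4, norm_smul, h1, Real.norm_eq_abs, abs_of_pos hr.1, le_div_iff₀ hw0]
      have h5 : 0 ≤ ‖u - (inner ℝ u (e : Rn (m + 1)) : ℝ) • (e : Rn (m + 1))‖ := norm_nonneg _
      nlinarith [hr.1, hr.2, mul_nonneg h5 hw0.le]
  calc (Module.finrank ℝ (Rn (m + 1)) : ℝ≥0∞) *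
        volume (Ioo (0 : ℝ) 1 • ((↑) '' caps δ w : Set (Rn (m + 1))))
      ≤ ((m + 1 : ℕ) : ℝ≥0∞) * (ENNReal.ofReal (2 * 1) *
          ENNReal.ofReal (2 * (2 * δ / ‖w‖)) ^ m) := by
        rw [finrank_euclideanSpace_fin]
        gcongr
        exact (measure_mono hsub).trans (vol_cyl_le hu1 (by positivity))
    _ = ENNReal.ofReal (2 * (m + 1) * (4 * δ / ‖w‖) ^ m) := by
        rw [← ENNReal.ofReal_pow (by positivity), ← ENNReal.ofReal_mul (by norm_num),
          ← ENNReal.ofReal_natCast, ← ENNReal.ofReal_mul (by positivity)]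
        congr 1
        push_cast
        ring

lemma surf_univ_lt_top (n : ℕ) : surf n univ < ∞ := by
  unfold surf
  exact measure_lt_top _ _

end Pool.Agent.H74.Kak
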