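import Pool.Agent.H74.Kak.Slab

/-!
The Kakeya maximal function of functions supported in sparse sets.
-/

open MeasureTheory Metric Set
open scoped ENNReal NNReal Pointwise

namespace Pool.Agent.H74.Kak

lemma pow_lintegral_le {α : Type*} [MeasurableSpace α] (μ : Measure α) {f : α → ℝ≥0∞}
    (hf : AEMeasurable f μ) (k : ℕ) :
    (∫⁻ x, f x ∂μ) ^ (k + 2) ≤ μ univ ^ (k + 1) * ∫⁻ x, f x ^ (k + 2) ∂μ := by
  have hpq : ((k : ℝ) + 2).HolderConjugate (((k : ℝ) + 2) / ((k : ℝ) + 1)) := by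
    rw [Real.holderConjugate_iff]
    constructor
    · have : (0 : ℝ) ≤ k := Nat.cast_nonneg k
      linarith
    · field_simp
      ring
  have h1 := ENNReal.lintegral_mul_le_Lp_mul_Lq μ hpq hf (g := fun _ => 1) aemeasurable_const
  simp only [Pi.mul_apply, mul_one, ENNReal.one_rpow, lintegral_one] at h1
  have hk : (0 : ℝ) < (k : ℝ) + 2 := by positivity
  have hk1 : (0 : ℝ) < (k : ℝ) + 1 := by positivity
  calc (∫⁻ x, f x ∂μ) ^ (k + 2) ≤
      ((∫⁻ x, f x ^ ((k : ℝ) + 2) ∂μ) ^ (1 / ((k : ℝ) + 2)) *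
        μ univ ^ (1 / (((k : ℝ) + 2) / ((k : ℝ) + 1)))) ^ (k + 2) := by gcongr
    _ = (∫⁻ x, f x ^ ((k : ℝ) + 2) ∂μ) * μ univ ^ (k + 1) := by
        rw [mul_pow, ← ENNReal.rpow_natCast, ← ENNReal.rpow_natCast, ← ENNReal.rpow_mul,
          ← ENNReal.rpow_mul]
        have e1 : 1 / ((k : ℝ) + 2) * ((k + 2 : ℕ) : ℝ) = 1 := by
          push_cast
          field_simp
        have e2 : 1 / (((k : ℝ) + 2) / ((k : ℝ) + 1)) * ((k + 2 : ℕ) : ℝ) = ((k + 1 : ℕ) : ℝ) := by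
          push_cast
          field_simp
        rw [e1, e2, ENNReal.rpow_one, ENNReal.rpow_natCast]
    _ = μ univ ^ (k + 1) * ∫⁻ x, f x ^ (k + 2) ∂μ := by
        rw [mul_comm]
        congr 1
        refine lintegral_congr fun x => ?_
        rw [← ENNReal.rpow_natCast]
        push_cast
        rfl

/-- The kernel of pairs of points in a tube with direction `e`. -/
noncomputable def ker {n : ℕ} (k : ℕ) (δ ρ : ℝ) (e w : Rn n) : ℝ≥0∞ :=
  {w : Rn n | ‖w‖ ≤ 2 ∧ ‖w - (inner ℝ w e : ℝ) • e‖ ≤ 2 * δ}.indicator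
    (fun w => ENNReal.ofReal ((ρ + ‖w‖) ^ k)) w

lemma measurable_ker {n : ℕ} (k : ℕ) (δ ρ : ℝ) :
    Measurable fun p : Rn n × Rn n => ker k δ ρ p.1 p.2 := by
  have h1 : IsClosed {p : Rn n × Rn n | ‖p.2‖ ≤ 2} := isClosed_le (by fun_prop) continuous_const
  have h2 : IsClosed {p : Rn n × Rn n | ‖p.2 - (inner ℝ p.2 p.1 : ℝ) • p.1‖ ≤ 2 * δ} :=
    isClosed_le (by fun_prop) continuous_const
  have h3 : (fun p : Rn n × Rn n => ker k δ ρ p.1 p.2) =
      ({p : Rn n × Rn n | ‖p.2‖ ≤ 2} ∩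
        {p : Rn n × Rn n | ‖p.2 - (inner ℝ p.2 p.1 : ℝ) • p.1‖ ≤ 2 * δ}).indicator
      (fun p => ENNReal.ofReal ((ρ + ‖p.2‖) ^ k)) := by
    ext p
    simp only [ker, indicator, mem_inter_iff, mem_ofPred_eq]
  rw [h3]
  refine Measurable.indicator ?_ (h1.measurableSet.inter h2.measurableSet)
  exact ENNReal.measurable_ofReal.comp (by fun_prop)

lemma sub_mem {n : ℕ} {δ : ℝ} {e a y z : Rn n} (he : ‖e‖ = 1) (hδ : δ ≤ 1 / 2)
    (hy : y ∈ tube δ e a) (hz : z ∈ tube δ e a) :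
    ‖z - y‖ ≤ 2 ∧ ‖(z - y) - (inner ℝ (z - y) e : ℝ) • e‖ ≤ 2 * δ := by
  obtain ⟨hy1, hy2⟩ := hy
  obtain ⟨hz1, hz2⟩ := hz
  have h0 : (inner ℝ (z - y) e : ℝ) = inner ℝ (z - a) e - inner ℝ (y - a) e := by
    rw [← inner_sub_left]
    congr 1
    abel
  have h1 : (z - y) - (inner ℝ (z - y) e : ℝ) • e =
      ((z - a) - (inner ℝ (z - a) e : ℝ) • e) - ((y - a) - (inner ℝ (y - a) e : ℝ) • e) := by
    rw [h0, sub_smul]
    abel
  have h2 : ‖(z - y) - (inner ℝ (z - y) e : ℝ) • e‖ ≤ 2 * δ := by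
    rw [h1]
    refine (norm_sub_le _ _).trans ?_
    linarith
  refine ⟨?_, h2⟩
  have h3 : z - y = ((z - y) - (inner ℝ (z - y) e : ℝ) • e) + (inner ℝ (z - y) e : ℝ) • e := by
    abel
  have h4 : |(inner ℝ (z - y) e : ℝ)| ≤ 1 := by
    rw [h0]
    refine (abs_sub _ _).trans ?_
    linarith
  rw [h3]
  refine (norm_add_le _ _).trans ?_
  rw [norm_smul, he, Real.norm_eq_abs]
  linarith

/-- The basic inequality for one direction. -/
lemma one_tube {k : ℕ} {e : Rn (k + 1 + 1)} (a : Rn (k + 1 + 1)) (he : ‖e‖ = 1) {δ ρ V : ℝ}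
    (hδ : 0 < δ) (hρ : 2 * δ ≤ ρ) (hρ1 : ρ ≤ 1) (hV : 0 ≤ V) {E : Set (Rn (k + 1 + 1))}
    (hEm : MeasurableSet E)
    (hE : ∀ x, volume (E ∩ closedBall x ρ) ≤ ENNReal.ofReal V)
    {g : Rn (k + 1 + 1) → ℝ≥0∞} (hg : Measurable g) (hgE : ∀ x, x ∉ E → g x = 0) :
    ((volume (tube δ e a))⁻¹ * ∫⁻ y in tube δ e a, g y) ^ (k + 2) ≤
      ENNReal.ofReal (((2 * (δ / (k + 1 + 1))) ^ (k + 1))⁻¹ ^ (k + 2) * (2 * (4 * V / ρ) ^ k)) *
        ∫⁻ y, g y ^ (k + 2) * ∫⁻ z in E, ker k δ ρ e (z - y) := by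
  have hρ0 : 0 < ρ := by linarith
  have hTm := measurableSet_tube δ e a
  have hvol : (volume (tube δ e a))⁻¹ ≤
      ENNReal.ofReal (((2 * (δ / (k + 1 + 1))) ^ (k + 1))⁻¹) := by
    rw [ENNReal.ofReal_inv_of_pos (by positivity), ENNReal.inv_le_inv]
    have := vol_tube_ge (m := k + 1) a he hδ.le
    push_cast at this
    exact this
  have h1 : (∫⁻ y in tube δ e a, g y) = ∫⁻ y in E ∩ tube δ e a, g y := by
    rw [← Measure.restrict_restrict hEm, ← lintegral_indicator hEm]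
    refine lintegral_congr fun y => ?_
    by_cases hy : y ∈ E
    · rw [indicator_of_mem hy]
    · rw [indicator_of_notMem hy, hgE y hy]
  have h2 : (∫⁻ y in E ∩ tube δ e a, g y) ^ (k + 2) ≤
      volume (E ∩ tube δ e a) ^ (k + 1) * ∫⁻ y in E ∩ tube δ e a, g y ^ (k + 2) := by
    have := pow_lintegral_le (volume.restrict (E ∩ tube δ e a)) hg.aemeasurable k
    rwa [Measure.restrict_apply_univ] at this
  have h3 : volume (E ∩ tube δ e a) ^ (k + 1) * ∫⁻ y in E ∩ tube δ e a, g y ^ (k + 2) ≤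
      ENNReal.ofReal (2 * (4 * V / ρ) ^ k) *
        ∫⁻ y, g y ^ (k + 2) * ∫⁻ z in E, ker k δ ρ e (z - y) := by
    rw [← lintegral_const_mul' _ _ ENNReal.ofReal_ne_top]
    rw [mul_comm, ← lintegral_mul_const'' _ (hg.pow_const _).aemeasurable]
    refine (setLIntegral_mono' (hEm.inter hTm) (g := fun y => ENNReal.ofReal
      (2 * (4 * V / ρ) ^ k) * (g y ^ (k + 2) * ∫⁻ z in E, ker k δ ρ e (z - y))) ?_).trans
      (setLIntegral_le_lintegral _ _)
    intro y hy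
    have h4 := moment_ge a he hδ hρ hV hEm hE (inner ℝ (y - a) e)
    have h5 : ∫⁻ z in E ∩ tube δ e a,
        ENNReal.ofReal ((ρ + |(inner ℝ (z - a) e : ℝ) - inner ℝ (y - a) e|) ^ k) ≤
        ∫⁻ z in E, ker k δ ρ e (z - y) := by
      refine (setLIntegral_mono' (hEm.inter hTm) (g := fun z => ker k δ ρ e (z - y)) ?_).trans
        (lintegral_mono_set inter_subset_left)
      intro z hz
      have h6 := sub_mem he (by linarith) hy.2 hz.2
      rw [ker, indicator_of_mem (by exact h6)]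
      apply ENNReal.ofReal_le_ofReal
      have h7 : (inner ℝ (z - a) e : ℝ) - inner ℝ (y - a) e = inner ℝ (z - y) e := by
        rw [← inner_sub_left]
        congr 1
        abel
      have h8 : |(inner ℝ (z - y) e : ℝ)| ≤ ‖z - y‖ := by
        have := abs_real_inner_le_norm (z - y) e
        rwa [he, mul_one] at this
      rw [h7]
      gcongr
    calc g y ^ (k + 2) * volume (E ∩ tube δ e a) ^ (k + 1)
        ≤ g y ^ (k + 2) * (ENNReal.ofReal (2 * (4 * V / ρ) ^ k) *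
          ∫⁻ z in E, ker k δ ρ e (z - y)) := by
          gcongr
          exact h4.trans (by gcongr)
      _ = _ := by ring
  calc ((volume (tube δ e a))⁻¹ * ∫⁻ y in tube δ e a, g y) ^ (k + 2)
      ≤ (ENNReal.ofReal (((2 * (δ / (k + 1 + 1))) ^ (k + 1))⁻¹) *
          ∫⁻ y in tube δ e a, g y) ^ (k + 2) := by gcongr
    _ = ENNReal.ofReal (((2 * (δ / (k + 1 + 1))) ^ (k + 1))⁻¹ ^ (k + 2)) *
          (∫⁻ y in E ∩ tube δ e a, g y) ^ (k + 2) := by
        rw [mul_pow, ← h1, ENNReal.ofReal_pow (by positivity)]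
    _ ≤ ENNReal.ofReal (((2 * (δ / (k + 1 + 1))) ^ (k + 1))⁻¹ ^ (k + 2)) *
          (ENNReal.ofReal (2 * (4 * V / ρ) ^ k) *
        ∫⁻ y, g y ^ (k + 2) * ∫⁻ z in E, ker k δ ρ e (z - y)) := by
        gcongr
        exact h2.trans h3
    _ = _ := by
        rw [← mul_assoc, ← ENNReal.ofReal_mul (by positivity)]

end Pool.Agent.H74.Kak
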