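import Pool.Agent.H74.Kak.Fin

/-!
Evaluation of the constants.
-/

open MeasureTheory Metric Set
open scoped ENNReal NNReal Pointwise

namespace Pool.Agent.H74.Kak

lemma cj_le {k : ℕ} {δ ρ α : ℝ} (hδ : 0 < δ) (hρ0 : 0 < ρ) (hρ1 : ρ ≤ 1) (hα : 1 ≤ α)
    (hα2 : α ≤ k + 2) {j : ℕ} (hj : 2 ^ j * ρ ≤ 2) :
    cj k δ ρ j * (2 ^ (j + 1)) ^ α ≤
      (4 * (k + 1 + 1) * 4 ^ (3 * k + 2)) * (δ ^ (k + 1) * ρ ^ (-α)) := by
  have h1 : cj k δ ρ j = 2 * (k + 1 + 1) * 4 ^ (2 * k + 1) * (δ ^ (k + 1) * ρ⁻¹ * (2 ^ j)⁻¹) := by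
    unfold cj
    rw [mul_pow, div_pow, mul_pow, mul_pow]
    have : (2 : ℝ) ^ (j + 2) = 4 * 2 ^ j := by ring
    rw [this, mul_pow]
    have h2 : (4 : ℝ) ^ (2 * k + 1) = 4 ^ k * 4 ^ (k + 1) := by ring
    rw [h2]
    have h3 : (2 ^ j : ℝ) ≠ 0 := by positivity
    field_simp
    ring
  have h2 : ((2 : ℝ) ^ (j + 1)) ^ α ≤ 2 * 2 ^ j * (4 ^ (k + 1) * (ρ ^ (-α) * ρ)) := by
    have e1 : ((2 : ℝ) ^ (j + 1)) ^ α = 2 ^ (j + 1) * (2 ^ (j + 1)) ^ (α - 1) := by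
      rw [← Real.rpow_one_add' (by positivity) (by linarith)]
      congr 1
      ring
    have e2 : ((2 : ℝ) ^ (j + 1)) ^ (α - 1) ≤ (4 / ρ) ^ (α - 1) := by
      apply Real.rpow_le_rpow (by positivity) _ (by linarith)
      rw [le_div_iff₀ hρ0, pow_succ]
      linarith
    have e3 : (4 / ρ) ^ (α - 1) ≤ 4 ^ (k + 1) * (ρ ^ (-α) * ρ) := by
      rw [Real.div_rpow (by norm_num) hρ0.le]
      have e4 : (4 : ℝ) ^ (α - 1) ≤ 4 ^ (k + 1) := by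
        rw [← Real.rpow_natCast]
        apply Real.rpow_le_rpow_of_exponent_le (by norm_num)
        push_cast
        linarith
      have e5 : ρ ^ (-α) * ρ = (ρ ^ (α - 1))⁻¹ := by
        rw [← Real.rpow_neg hρ0.le]
        nth_rewrite 2 [← Real.rpow_one ρ]
        rw [← Real.rpow_add hρ0]
        congr 1
        ring
      rw [e5, div_eq_mul_inv]
      gcongr
    calc ((2 : ℝ) ^ (j + 1)) ^ α = 2 ^ (j + 1) * (2 ^ (j + 1)) ^ (α - 1) := e1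
      _ ≤ 2 ^ (j + 1) * (4 ^ (k + 1) * (ρ ^ (-α) * ρ)) := by
          gcongr
          exact e2.trans e3
      _ = _ := by ring
  have h0 : 0 ≤ cj k δ ρ j := by unfold cj; positivity
  calc cj k δ ρ j * (2 ^ (j + 1)) ^ α
      ≤ cj k δ ρ j * (2 * 2 ^ j * (4 ^ (k + 1) * (ρ ^ (-α) * ρ))) := by gcongr
    _ = _ := by
        rw [h1]
        have h3 : (2 ^ j : ℝ) ≠ 0 := by positivity
        have h4 : (4 : ℝ) ^ (3 * k + 2) = 4 ^ (2 * k + 1) * 4 ^ (k + 1) := by ring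
        rw [h4]
        field_simp
        ring

/-- the final constant -/
noncomputable def C0 (k : ℕ) : ℝ :=
  ((2 / ((k : ℝ) + 1 + 1)) ^ (k + 1))⁻¹ ^ (k + 2) * (2 * 4 ^ k) *
    (2 ^ k * (surf (k + 1 + 1) univ).toReal + 8 * (k + 1 + 1) * 4 ^ (3 * k + 2))

lemma C0_pos (k : ℕ) : 0 < C0 k := by
  unfold C0
  have h1 : 0 ≤ (surf (k + 1 + 1) univ).toReal := ENNReal.toReal_nonneg
  positivity

lemma exists_J {ρ : ℝ} (hρ0 : 0 < ρ) (hρ1 : ρ ≤ 1) :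
    ∃ J : ℕ, 2 ≤ 2 ^ J * ρ ∧ (∀ j < J, (2 : ℝ) ^ j * ρ ≤ 2) ∧
      (J : ℝ) ≤ 2 * (1 + Real.log (1 / ρ)) := by
  refine ⟨⌈Real.logb 2 (2 / ρ)⌉₊, ?_, ?_, ?_⟩
  · have h1 : Real.logb 2 (2 / ρ) ≤ (⌈Real.logb 2 (2 / ρ)⌉₊ : ℝ) := Nat.le_ceil _
    rw [Real.logb_le_iff_le_rpow (by norm_num) (by positivity), Real.rpow_natCast,
      div_le_iff₀ hρ0] at h1
    exact h1
  · intro j hj
    have h1 := Nat.lt_ceil.1 hj
    rw [Real.lt_logb_iff_rpow_lt (by norm_num) (by positivity), Real.rpow_natCast,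
      lt_div_iff₀ hρ0] at h1
    exact h1.le
  · have h0 : 0 ≤ Real.logb 2 (2 / ρ) := by
      apply Real.logb_nonneg (by norm_num)
      rw [le_div_iff₀ hρ0]
      linarith
    have h1 := (Nat.ceil_lt_add_one h0).le
    refine h1.trans ?_
    have h2 : Real.logb 2 (2 / ρ) = 1 + Real.log (1 / ρ) / Real.log 2 := by
      rw [Real.logb, div_eq_mul_one_div 2 ρ, Real.log_mul (by norm_num) (by positivity), add_div,
        div_self (Real.log_pos (by norm_num)).ne']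
    rw [h2]
    have h3 : 0 ≤ Real.log (1 / ρ) := by
      apply Real.log_nonneg
      rw [le_div_iff₀ hρ0]
      linarith
    have h4 : Real.log (1 / ρ) / Real.log 2 ≤ 2 * Real.log (1 / ρ) := by
      rw [div_le_iff₀ (Real.log_pos (by norm_num))]
      have : (0.5 : ℝ) ≤ Real.log 2 := by linarith [Real.log_two_gt_d9]
      nlinarith
    linarith

lemma const_le {k : ℕ} {δ ρ A α : ℝ} (hδ : 0 < δ) (hρ0 : 0 < ρ) (hρ1 : ρ ≤ 1) (hA : 0 ≤ A)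
    (hα : 1 ≤ α) (hα2 : α ≤ k + 2) {J : ℕ} (hJ2 : ∀ j < J, (2 : ℝ) ^ j * ρ ≤ 2)
    (hJ3 : (J : ℝ) ≤ 2 * (1 + Real.log (1 / ρ))) :
    ((2 * (δ / (k + 1 + 1))) ^ (k + 1))⁻¹ ^ (k + 2) *
          (2 * (4 * (A * δ ^ (k + 2)) / ρ) ^ k) *
        ((2 * ρ) ^ k * (surf (k + 1 + 1) univ).toReal * (A * δ ^ (k + 2)) +
          ∑ j ∈ Finset.range J, cj k δ ρ j * (A * δ ^ (k + 2) * (2 ^ (j + 1)) ^ α)) ≤
      C0 k * A ^ (k + 1) *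
        (1 + δ ^ (k + 1) * ρ ^ (-((k : ℝ) + α)) * (1 + Real.log (1 / ρ))) := by
  set S : ℝ := (surf (k + 1 + 1) univ).toReal with hS
  have hS0 : 0 ≤ S := ENNReal.toReal_nonneg
  set L : ℝ := 1 + Real.log (1 / ρ) with hL
  have hL0 : 0 ≤ L := by
    have : 0 ≤ Real.log (1 / ρ) := by
      apply Real.log_nonneg
      rw [le_div_iff₀ hρ0]
      linarith
    linarith
  set D : ℝ := 4 * (k + 1 + 1) * 4 ^ (3 * k + 2) with hD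
  have hD0 : 0 ≤ D := by positivity
  have hsum : ∑ j ∈ Finset.range J, cj k δ ρ j * (A * δ ^ (k + 2) * (2 ^ (j + 1)) ^ α) ≤
      2 * L * (D * (δ ^ (k + 1) * ρ ^ (-α)) * (A * δ ^ (k + 2))) := by
    calc ∑ j ∈ Finset.range J, cj k δ ρ j * (A * δ ^ (k + 2) * (2 ^ (j + 1)) ^ α)
        ≤ ∑ j ∈ Finset.range J, D * (δ ^ (k + 1) * ρ ^ (-α)) * (A * δ ^ (k + 2)) := by
          refine Finset.sum_le_sum fun j hj => ?_
          have h1 := cj_le hδ hρ0 hρ1 hα hα2 (hJ2 j (Finset.mem_range.1 hj))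
          calc cj k δ ρ j * (A * δ ^ (k + 2) * (2 ^ (j + 1)) ^ α)
              = (cj k δ ρ j * (2 ^ (j + 1)) ^ α) * (A * δ ^ (k + 2)) := by ring
            _ ≤ _ := by gcongr
      _ = J * (D * (δ ^ (k + 1) * ρ ^ (-α)) * (A * δ ^ (k + 2))) := by
          rw [Finset.sum_const, Finset.card_range, nsmul_eq_mul]
      _ ≤ _ := by gcongr
  have hq : ((2 * (δ / ((k : ℝ) + 1 + 1))) ^ (k + 1))⁻¹ ^ (k + 2) *
          (2 * (4 * (A * δ ^ (k + 2)) / ρ) ^ k) * (A * δ ^ (k + 2)) =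
      ((2 / ((k : ℝ) + 1 + 1)) ^ (k + 1))⁻¹ ^ (k + 2) * (2 * 4 ^ k) * A ^ (k + 1) *
        (ρ ^ k)⁻¹ := by
    have e1 : 2 * (δ / ((k : ℝ) + 1 + 1)) = (2 / ((k : ℝ) + 1 + 1)) * δ := by ring
    have e3 : (4 * (A * δ ^ (k + 2)) / ρ) ^ k = 4 ^ k * (A ^ k * (δ ^ (k + 2)) ^ k) / ρ ^ k := by
      rw [div_pow, mul_pow, mul_pow]
    rw [e1, mul_pow, mul_inv, mul_pow, e3]
    have e2 : ((δ ^ (k + 1))⁻¹) ^ (k + 2) * ((δ ^ (k + 2)) ^ k * δ ^ (k + 2)) = 1 := by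
      rw [← pow_succ, inv_pow, ← pow_mul, ← pow_mul, mul_comm (k + 1) (k + 2)]
      exact inv_mul_cancel₀ (by positivity)
    calc (((2 / ((k : ℝ) + 1 + 1)) ^ (k + 1))⁻¹ ^ (k + 2) * (δ ^ (k + 1))⁻¹ ^ (k + 2)) *
          (2 * (4 ^ k * (A ^ k * (δ ^ (k + 2)) ^ k) / ρ ^ k)) * (A * δ ^ (k + 2))
        = ((2 / ((k : ℝ) + 1 + 1)) ^ (k + 1))⁻¹ ^ (k + 2) * (2 * 4 ^ k) * (A ^ k * A) *
          (ρ ^ k)⁻¹ * (((δ ^ (k + 1))⁻¹) ^ (k + 2) * ((δ ^ (k + 2)) ^ k * δ ^ (k + 2))) := by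
          ring
      _ = _ := by rw [e2, mul_one, pow_succ A k]
  have hρk : (ρ ^ k)⁻¹ * ρ ^ (-α) = ρ ^ (-((k : ℝ) + α)) := by
    rw [← Real.rpow_natCast, ← Real.rpow_neg hρ0.le, ← Real.rpow_add hρ0]
    congr 1
    ring
  set q : ℝ := ((2 / ((k : ℝ) + 1 + 1)) ^ (k + 1))⁻¹ ^ (k + 2) * (2 * 4 ^ k) with hqdef
  have hq0 : 0 ≤ q := by positivity
  set R : ℝ := δ ^ (k + 1) * ρ ^ (-((k : ℝ) + α)) * L with hR
  have hR0 : 0 ≤ R := by positivity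
  calc ((2 * (δ / ((k : ℝ) + 1 + 1))) ^ (k + 1))⁻¹ ^ (k + 2) *
          (2 * (4 * (A * δ ^ (k + 2)) / ρ) ^ k) *
        ((2 * ρ) ^ k * S * (A * δ ^ (k + 2)) +
          ∑ j ∈ Finset.range J, cj k δ ρ j * (A * δ ^ (k + 2) * (2 ^ (j + 1)) ^ α))
      ≤ ((2 * (δ / ((k : ℝ) + 1 + 1))) ^ (k + 1))⁻¹ ^ (k + 2) *
          (2 * (4 * (A * δ ^ (k + 2)) / ρ) ^ k) *
        ((2 * ρ) ^ k * S * (A * δ ^ (k + 2)) +
          2 * L * (D * (δ ^ (k + 1) * ρ ^ (-α)) * (A * δ ^ (k + 2)))) := by gcongr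
    _ = (((2 * (δ / ((k : ℝ) + 1 + 1))) ^ (k + 1))⁻¹ ^ (k + 2) *
          (2 * (4 * (A * δ ^ (k + 2)) / ρ) ^ k) * (A * δ ^ (k + 2))) *
        (2 ^ k * ρ ^ k * S + 2 * D * (δ ^ (k + 1) * ρ ^ (-α) * L)) := by ring
    _ = q * A ^ (k + 1) * (2 ^ k * S * ((ρ ^ k)⁻¹ * ρ ^ k) +
          2 * D * (δ ^ (k + 1) * ((ρ ^ k)⁻¹ * ρ ^ (-α)) * L)) := by
        rw [hq]
        ring
    _ = q * A ^ (k + 1) * (2 ^ k * S + 2 * D * R) := by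
        rw [inv_mul_cancel₀ (by positivity), hρk, mul_one, hR]
    _ ≤ q * A ^ (k + 1) * ((2 ^ k * S + 2 * D) * (1 + R)) := by
        gcongr
        nlinarith [mul_nonneg (mul_nonneg (pow_nonneg (zero_le_two (α := ℝ)) k) hS0) hR0]
    _ = C0 k * A ^ (k + 1) * (1 + R) := by
        rw [C0, hD, hqdef]
        ring

end Pool.Agent.H74.Kak
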