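import Pool.Agent.H74.Kak.Geom

/-!
Sparse sets in tubes.
-/

open MeasureTheory Metric Set
open scoped ENNReal NNReal Pointwise

namespace Pool.Agent.H74.Kak

/-- The tube of length one and radius `δ` with axis direction `e` and centre `a`. -/
def tube {n : ℕ} (δ : ℝ) (e a : Rn n) : Set (Rn n) :=
  {y | |inner ℝ (y - a) e| ≤ 1 / 2 ∧ ‖(y - a) - (inner ℝ (y - a) e : ℝ) • e‖ ≤ δ}

lemma measurableSet_tube {n : ℕ} (δ : ℝ) (e a : Rn n) : MeasurableSet (tube δ e a) := by
  have h1 : IsClosed {y : Rn n | |(inner ℝ (y - a) e : ℝ)| ≤ 1 / 2} :=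
    isClosed_le (by fun_prop) continuous_const
  have h2 : IsClosed {y : Rn n | ‖(y - a) - (inner ℝ (y - a) e : ℝ) • e‖ ≤ δ} :=
    isClosed_le (by fun_prop) continuous_const
  exact h1.measurableSet.inter h2.measurableSet

lemma vol_tube_ge {m : ℕ} {e : Rn (m + 1)} (a : Rn (m + 1)) (he : ‖e‖ = 1) {δ : ℝ} (hδ : 0 ≤ δ) :
    ENNReal.ofReal ((2 * (δ / (m + 1))) ^ m) ≤ volume (tube δ e a) := by
  have h1 : tube δ e a = (fun y => y + (-a)) ⁻¹' (cyl (1 / 2) δ e) := by
    ext y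
    simp only [tube, cyl, mem_preimage, mem_ofPred_eq, sub_eq_add_neg]
  rw [h1, measure_preimage_add_right]
  refine le_trans ?_ (vol_cyl_ge he hδ)
  rw [ENNReal.ofReal_pow (by positivity)]
  norm_num

lemma slab_le {m : ℕ} {e : Rn (m + 1)} (a : Rn (m + 1)) (he : ‖e‖ = 1) {δ ρ V : ℝ}
    (hδ : 0 < δ) (hρ : 2 * δ ≤ ρ) (hV : 0 ≤ V) {E : Set (Rn (m + 1))}
    (hE : ∀ x, volume (E ∩ closedBall x ρ) ≤ ENNReal.ofReal V) (c s : ℝ) (hs : 0 ≤ s) :
    volume ((E ∩ tube δ e a) ∩ {z | |(inner ℝ (z - a) e : ℝ) - c| ≤ s}) ≤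
      ENNReal.ofReal (V * (2 * s / ρ + 1)) := by
  have hρ0 : 0 < ρ := by linarith
  set N : ℕ := ⌊2 * s / ρ⌋₊ + 1 with hN
  have hsub : (E ∩ tube δ e a) ∩ {z | |(inner ℝ (z - a) e : ℝ) - c| ≤ s} ⊆
      ⋃ k ∈ Finset.range N, E ∩ closedBall (a + (c - s + (k + 1 / 2) * ρ) • e) ρ := by
    rintro z ⟨⟨hzE, hz1, hz2⟩, hz3⟩
    have hz3' : |(inner ℝ (z - a) e : ℝ) - c| ≤ s := hz3
    set t : ℝ := inner ℝ (z - a) e with ht
    have h0 : 0 ≤ (t - c + s) / ρ := by
      have := neg_le_of_abs_le hz3'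
      apply div_nonneg _ hρ0.le
      linarith
    have h1 : (t - c + s) / ρ ≤ 2 * s / ρ := by
      have := le_of_abs_le hz3'
      gcongr
      linarith
    simp only [mem_iUnion, Finset.mem_range]
    refine ⟨⌊(t - c + s) / ρ⌋₊, ?_, hzE, ?_⟩
    · have := Nat.floor_le_floor h1
      omega
    · set k : ℕ := ⌊(t - c + s) / ρ⌋₊ with hk
      have h2 : (k : ℝ) ≤ (t - c + s) / ρ := Nat.floor_le h0
      have h3 : (t - c + s) / ρ < k + 1 := Nat.lt_floor_add_one _
      rw [le_div_iff₀ hρ0] at h2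
      rw [div_lt_iff₀ hρ0] at h3
      set τ : ℝ := c - s + (k + 1 / 2) * ρ with hτ
      have h4 : |t - τ| ≤ ρ / 2 := by
        rw [abs_le]
        constructor <;> nlinarith
      rw [mem_closedBall, dist_eq_norm]
      have h5 : z - (a + τ • e) = ((z - a) - t • e) + (t - τ) • e := by
        rw [sub_smul]
        abel
      rw [h5]
      calc ‖((z - a) - t • e) + (t - τ) • e‖ ≤ ‖(z - a) - t • e‖ + ‖(t - τ) • e‖ :=
            norm_add_le _ _
        _ ≤ δ + ρ / 2 := by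
            rw [norm_smul, he, Real.norm_eq_abs, mul_one]
            exact add_le_add hz2 h4
        _ ≤ ρ := by linarith
  calc volume ((E ∩ tube δ e a) ∩ {z | |(inner ℝ (z - a) e : ℝ) - c| ≤ s})
      ≤ volume (⋃ k ∈ Finset.range N,
          E ∩ closedBall (a + (c - s + ((k : ℝ) + 1 / 2) * ρ) • e) ρ) := measure_mono hsub
    _ ≤ ∑ k ∈ Finset.range N, volume
          (E ∩ closedBall (a + (c - s + ((k : ℝ) + 1 / 2) * ρ) • e) ρ) :=
        measure_biUnion_finset_le _ _
    _ ≤ ∑ k ∈ Finset.range N, ENNReal.ofReal V := Finset.sum_le_sum fun k _ => hE _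
    _ = ENNReal.ofReal (N * V) := by
        rw [Finset.sum_const, Finset.card_range, nsmul_eq_mul, ENNReal.ofReal_mul (by positivity),
          ENNReal.ofReal_natCast]
    _ ≤ ENNReal.ofReal (V * (2 * s / ρ + 1)) := by
        apply ENNReal.ofReal_le_ofReal
        rw [mul_comm]
        have h6 : (⌊2 * s / ρ⌋₊ : ℝ) ≤ 2 * s / ρ := Nat.floor_le (by positivity)
        have h7 : (N : ℝ) ≤ 2 * s / ρ + 1 := by
          rw [hN]
          push_cast
          linarith
        gcongr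

/-- The measure of a sparse set in a tube is bounded by a moment of order `k`. -/
lemma moment_ge {k : ℕ} {e : Rn (k + 1 + 1)} (a : Rn (k + 1 + 1)) (he : ‖e‖ = 1) {δ ρ V : ℝ}
    (hδ : 0 < δ) (hρ : 2 * δ ≤ ρ) (hV : 0 ≤ V) {E : Set (Rn (k + 1 + 1))}
    (hEm : MeasurableSet E)
    (hE : ∀ x, volume (E ∩ closedBall x ρ) ≤ ENNReal.ofReal V) (c : ℝ) :
    volume (E ∩ tube δ e a) ^ (k + 1) ≤ ENNReal.ofReal (2 * (4 * V / ρ) ^ k) *
      ∫⁻ z in E ∩ tube δ e a, ENNReal.ofReal ((ρ + |(inner ℝ (z - a) e : ℝ) - c|) ^ k) := by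
  have hρ0 : 0 < ρ := by linarith
  have hTm := measurableSet_tube δ e a
  set M := volume (E ∩ tube δ e a) with hM
  have hMle : M ≤ ENNReal.ofReal (V * (2 * (1 / 2) / ρ + 1)) := by
    have h1 := slab_le a he hδ hρ hV hE 0 (1 / 2) (by norm_num)
    refine le_trans (measure_mono ?_) h1
    rintro z ⟨hz, hz1, hz2⟩
    refine ⟨⟨hz, hz1, hz2⟩, ?_⟩
    show |(inner ℝ (z - a) e : ℝ) - 0| ≤ 1 / 2
    rw [sub_zero]
    exact hz1
  have hMtop : M ≠ ∞ := ne_top_of_le_ne_top ENNReal.ofReal_ne_top hMle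
  rcases eq_or_ne M 0 with h0 | h0
  · rw [h0]
    simp
  set r : ℝ := M.toReal with hr
  have hMr : M = ENNReal.ofReal r := (ENNReal.ofReal_toReal hMtop).symm
  have hr0 : 0 < r := ENNReal.toReal_pos h0 hMtop
  have hV0 : 0 < V := by
    rcases hV.lt_or_eq with h | h
    · exact h
    · exfalso
      rw [← h] at hMle
      simp at hMle
      exact h0 hMle
  set θ : ℝ := r * ρ / (4 * V) with hθ
  have hθ0 : 0 < θ := by positivity
  set S1 := {z ∈ E ∩ tube δ e a | ρ + |(inner ℝ (z - a) e : ℝ) - c| < θ} with hS1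
  set S2 := {z ∈ E ∩ tube δ e a | θ ≤ ρ + |(inner ℝ (z - a) e : ℝ) - c|} with hS2
  have hS1le : volume S1 ≤ ENNReal.ofReal (r / 2) := by
    rcases le_or_gt θ ρ with h | h
    · have : S1 = ∅ := by
        ext z
        simp only [hS1, mem_ofPred_eq, mem_empty_iff_false, iff_false, not_and, not_lt]
        intro _
        have := abs_nonneg ((inner ℝ (z - a) e : ℝ) - c)
        linarith
      rw [this]
      simp
    · have h1 := slab_le a he hδ hρ hV hE c (θ - ρ) (by linarith)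
      refine le_trans (measure_mono ?_) (h1.trans ?_)
      · rintro z ⟨hz, hz1⟩
        refine ⟨hz, ?_⟩
        show |(inner ℝ (z - a) e : ℝ) - c| ≤ θ - ρ
        linarith
      · apply ENNReal.ofReal_le_ofReal
        have h2 : 2 * (θ - ρ) / ρ + 1 = 2 * θ / ρ - 1 := by
          field_simp
          ring
        rw [h2]
        have h3 : V * (2 * θ / ρ) = r / 2 := by
          rw [hθ]
          field_simp
          ring
        nlinarith
  have hS2ge : ENNReal.ofReal (r / 2) ≤ volume S2 := by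
    have h1 : M ≤ volume S1 + volume S2 := by
      rw [hM]
      refine (measure_mono ?_).trans (measure_union_le S1 S2)
      intro z hz
      rcases lt_or_ge (ρ + |(inner ℝ (z - a) e : ℝ) - c|) θ with h | h
      · exact Or.inl ⟨hz, h⟩
      · exact Or.inr ⟨hz, h⟩
    have h2 : ENNReal.ofReal (r / 2) + ENNReal.ofReal (r / 2) ≤
        ENNReal.ofReal (r / 2) + volume S2 := by
      rw [← ENNReal.ofReal_add (by positivity) (by positivity), add_halves, ← hMr]
      exact h1.trans (by gcongr)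
    exact (ENNReal.add_le_add_iff_left ENNReal.ofReal_ne_top).1 h2
  have hS2m : MeasurableSet S2 := by
    have h1 : IsClosed {z : Rn (k + 1 + 1) | θ ≤ ρ + |(inner ℝ (z - a) e : ℝ) - c|} :=
      isClosed_le continuous_const (by fun_prop)
    exact (hEm.inter hTm).inter h1.measurableSet
  have hint : ENNReal.ofReal (θ ^ k) * volume S2 ≤
      ∫⁻ z in E ∩ tube δ e a, ENNReal.ofReal ((ρ + |(inner ℝ (z - a) e : ℝ) - c|) ^ k) := by
    calc ENNReal.ofReal (θ ^ k) * volume S2 = ∫⁻ z in S2, ENNReal.ofReal (θ ^ k) := by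
          rw [setLIntegral_const]
      _ ≤ ∫⁻ z in S2, ENNReal.ofReal ((ρ + |(inner ℝ (z - a) e : ℝ) - c|) ^ k) := by
          refine setLIntegral_mono' hS2m fun z hz => ?_
          apply ENNReal.ofReal_le_ofReal
          have := hz.2
          gcongr
      _ ≤ _ := lintegral_mono_set (fun z hz => hz.1)
  calc M ^ (k + 1) = ENNReal.ofReal (r ^ (k + 1)) := by
        rw [hMr, ENNReal.ofReal_pow hr0.le]
    _ = ENNReal.ofReal (2 * (4 * V / ρ) ^ k) * (ENNReal.ofReal (θ ^ k) * ENNReal.ofReal (r / 2)) := by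
        rw [← ENNReal.ofReal_mul (by positivity), ← ENNReal.ofReal_mul (by positivity)]
        congr 1
        have h1 : 4 * V / ρ * θ = r := by
          rw [hθ]
          field_simp
        calc r ^ (k + 1) = (4 * V / ρ * θ) ^ k * r := by rw [h1, pow_succ]
          _ = _ := by rw [mul_pow]; ring
    _ ≤ ENNReal.ofReal (2 * (4 * V / ρ) ^ k) * (ENNReal.ofReal (θ ^ k) * volume S2) := by
        gcongr
    _ ≤ _ := by gcongr

end Pool.Agent.H74.Kak
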